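import Pool.Agent.Y797.TW.Gen
import Pool.Agent.X321.UA.Tor
import Pool.Agent.X321.DC.Main
set_option autoImplicit false

/-!
Tori near the corners of a tower of graphs, and the exact leading coefficients of the regulators (the
proof is the one of `Pool.Agent.Y797.TW.exists_torus`).
-/

namespace Pool.Agent.X321.TW

open Pool.Agent.Y797.TW

open Pool.Agent.TH826.MK

open Pool.Agent.TH577.UA (mmon mrow yrow det_yrow exists_points)

open Pool.Agent.TH826.SX (pairing_close)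

open MvPolynomial

section chart

variable {K : Type*} [Field K] {n : ℕ} (A : Tower K n)

/-- The chart at the corner of the graphs `φ_{j, c_j}`. -/
theorem exists_chart' (σ : K →+* ℂ) (hG : A.Graphs) (c : ∀ j, Fin (A.r j + 1)) :
    ∃ (x : Fin (n + 1) → MvPolynomial (Fin (n + 1)) ℂ)
      (al : Option ((j : Fin (n + 1)) × Fin (A.r j + 1)) → Fin (n + 1) →₀ ℕ),
      (∀ e, IsLow (bind₁ x (map σ (fct A e))) (al e)) ∧
      (∀ j, al (some ⟨j, c j⟩) = Finsupp.single j 1) ∧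
      (∀ j i, i ≠ c j → ∀ l, l ≤ j → al (some ⟨j, i⟩) l = 0) ∧
      ((0 : Fin (n + 1)) ∉ A.g.vars → al none 0 = 0) := by
  classical
  set φ : Fin (n + 1) → MvPolynomial (Fin (n + 1)) ℂ := fun j => map σ (A.phi j (c j)) with hφ
  have hvars : ∀ (p : MvPolynomial (Fin (n + 1)) K), (map σ p).vars = p.vars := fun p =>
    MvPolynomial.vars_map_of_injective p σ.injective
  have hφv : ∀ j, ∀ l ∈ (φ j).vars, j < l := by
    intro j l hl
    rw [hφ, hvars] at hl
    exact hG.1 j _ l hl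
  obtain ⟨x, hx, hxv⟩ := exists_tri φ hφv
  have hinj : Function.Injective (bind₁ x) := tri_injective hφv hx
  have hmapinj : Function.Injective (map σ : MvPolynomial (Fin (n + 1)) K →
      MvPolynomial (Fin (n + 1)) ℂ) := MvPolynomial.map_injective σ σ.injective
  -- the decomposition
  have hdec : ∀ (j : Fin (n + 1)) (i : Fin (A.r j + 1)), bind₁ x (map σ (A.fac j i)) =
      X j + bind₁ x (map σ (A.phi j (c j) - A.phi j i)) := by
    intro j i
    unfold Tower.fac
    rw [map_sub, map_sub, map_sub, map_sub, MvPolynomial.map_X, MvPolynomial.bind₁_X_right]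
    nth_rewrite 1 [hx j]
    ring
  have hself : ∀ j, bind₁ x (map σ (A.fac j (c j))) = X j := by
    intro j
    rw [hdec, sub_self, map_zero, map_zero, add_zero]
  have hpsi : ∀ (j : Fin (n + 1)) (i : Fin (A.r j + 1)), i ≠ c j →
      ∃ β ∈ (bind₁ x (map σ (A.fac j i))).support, ∀ l, l ≤ j → β l = 0 := by
    intro j i hi
    set ψ := bind₁ x (map σ (A.phi j (c j) - A.phi j i)) with hψ
    have hψ0 : ψ ≠ 0 := by
      intro h
      have h1 : map σ (A.phi j (c j) - A.phi j i) = 0 := hinj (by rw [map_zero]; exact h)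
      have h2 : A.phi j (c j) - A.phi j i = 0 := hmapinj (by rw [map_zero]; exact h1)
      exact hi (hG.2.1 j (sub_eq_zero.1 h2)).symm
    obtain ⟨β, hβ⟩ := MvPolynomial.support_nonempty.2 hψ0
    have hβ0 : ∀ l, l ≤ j → β l = 0 := by
      intro l hl
      by_contra hne
      have h1 : l ∈ ψ.vars := (MvPolynomial.mem_vars l).2 ⟨β, hβ, Finsupp.mem_support_iff.2 hne⟩
      obtain ⟨m, hm, hm2⟩ := MvPolynomial.mem_vars_bind₁ _ _ h1
      rw [hvars] at hm
      have h2 := MvPolynomial.vars_sub_subset _ hm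
      have h3 : j < m := by
        rcases Finset.mem_union.1 h2 with h | h
        · exact hG.1 j _ m h
        · exact hG.1 j _ m h
      exact absurd hl (not_le.2 (h3.trans_le (hxv m l hm2)))
    refine ⟨β, ?_, hβ0⟩
    rw [hdec, MvPolynomial.mem_support_iff, MvPolynomial.coeff_add, MvPolynomial.coeff_X, if_neg,
      zero_add]
    · exact MvPolynomial.mem_support_iff.1 hβ
    · intro h
      have h1 := hβ0 j le_rfl
      rw [← h, Finsupp.single_eq_same] at h1
      exact one_ne_zero h1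
  have hne : ∀ e, bind₁ x (map σ (fct A e)) ≠ 0 := by
    intro e h
    have h1 : map σ (fct A e) = 0 := hinj (by rw [map_zero]; exact h)
    have h2 : fct A e = 0 := hmapinj (by rw [map_zero]; exact h1)
    cases e with
    | none => exact hG.2.2 h2
    | some e =>
      have h3 : A.fac e.1 e.2 = 0 := h2
      have h4 := hdec e.1 e.2
      rw [h3, map_zero, map_zero] at h4
      by_cases hi : e.2 = c e.1
      · rw [hi, sub_self, map_zero, map_zero, add_zero] at h4
        exact MvPolynomial.X_ne_zero e.1 h4.symm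
      · obtain ⟨β, hβ, -⟩ := hpsi e.1 e.2 hi
        rw [h3, map_zero, map_zero, MvPolynomial.support_zero] at hβ
        exact absurd hβ (Finset.notMem_empty β)
  choose al hal using fun e => exists_low (hne e)
  refine ⟨x, al, hal, fun j => ?_, fun j i hi => ?_, fun hg0 => ?_⟩
  · have h1 := (hal (some ⟨j, c j⟩)).1
    have h2 : bind₁ x (map σ (fct A (some ⟨j, c j⟩))) = X j := hself j
    rw [h2, MvPolynomial.support_X, Finset.mem_singleton] at h1
    exact h1
  · obtain ⟨β, hβ, hβ0⟩ := hpsi j i hi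
    exact (hal (some ⟨j, i⟩)).zero hβ hβ0
  · by_contra hne0
    have h1 : (0 : Fin (n + 1)) ∈ (bind₁ x (map σ (fct A none))).vars :=
      (MvPolynomial.mem_vars 0).2 ⟨al none, (hal none).1, Finsupp.mem_support_iff.2 hne0⟩
    obtain ⟨m, hm, hm2⟩ := MvPolynomial.mem_vars_bind₁ _ _ h1
    rw [hvars] at hm
    have h2 := hxv m 0 hm2
    have h3 : m = 0 := Fin.le_zero_iff.1 h2
    rw [h3] at hm
    exact hg0 hm

end chart

section main

variable {K : Type*} [Field K] {n : ℕ} {A : Tower K n}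

theorem exists_torus_explicit (σ : K →+* ℂ) (hG : A.Graphs) (c : ∀ j, Fin (A.r j)) :
    ∃ q : ℕ, 0 < q ∧ ((0 : Fin (n + 1)) ∉ A.g.vars → q = 1) ∧ ∀ ε : ℝ, 0 < ε →
    ∃ Λ : ℝ, 1 < Λ ∧ ∀ lam : K, Λ ≤ ‖σ lam‖ → ∃ Γ : Torus (A.CRing lam) n,
      (∀ θ x, Γ.e θ (A.mkC lam (C x)) = σ x) ∧
      ∀ k, |Γ.reg (symb (A.ent lam k)) / (-Real.log ‖σ lam‖) -
          (if k = c then 1 else 0) * ((2 * Real.pi) ^ n * ((q : ℝ)⁻¹ * (q : ℝ) ^ n))| ≤ ε := by
  classical
  obtain ⟨x, al, hal, hal1, hal2, hal3⟩ := exists_chart' A σ hG fun j => (c j).succ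
  set D0 : ℕ := ∑ e, ∑ j, al e j with hD0
  have hD : ∀ e j, al e j ≤ D0 := fun e j =>
    (Finset.single_le_sum (f := fun j => al e j) (fun _ _ => Nat.zero_le _)
      (Finset.mem_univ j)).trans
    (Finset.single_le_sum (f := fun e => ∑ j, al e j) (fun _ _ => Nat.zero_le _)
      (Finset.mem_univ e))
  obtain ⟨m, hm⟩ := exists_rapid D0 (n + 1)
  set μ : Option ((j : Fin (n + 1)) × Fin (A.r j + 1)) → Fin (n + 1) → ℕ :=
    fun e => nex m fun i => al e i with hμdef
  set q : ℕ := ∑ e, μ e 0 with hq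
  set N : Fin n → ℕ := fun k => ∑ e, μ e k.succ with hN
  have hq0 : 0 < q := by
    refine lt_of_lt_of_le one_pos (le_trans ?_ (Finset.single_le_sum (f := fun e => μ e 0)
      (fun _ _ => Nat.zero_le _) (Finset.mem_univ (some ⟨0, (c 0).succ⟩))))
    simp only [hμdef]
    rw [hal1 0]
    unfold nex
    refine le_trans ?_ (Finset.single_le_sum (f := fun j =>
      (Finsupp.single (0 : Fin (n + 1)) 1) j * ex m j 0) (fun _ _ => Nat.zero_le _)
      (Finset.mem_univ 0))
    simp [ex]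
  have hdy : (Matrix.of (yrow q N)).det = (q : ℝ)⁻¹ * (q : ℝ) ^ n :=
    Pool.Agent.X321.UA.det_yrow_eq hq0 N
  have hμ0 : ∀ e, μ e 0 = al e 0 := by
    intro e
    simp only [hμdef]
    unfold nex
    rw [Finset.sum_eq_single 0]
    · simp [ex]
    · intro j _ hj
      simp [ex, hj]
    · intro h
      exact absurd (Finset.mem_univ _) h
  have hq1 : (0 : Fin (n + 1)) ∉ A.g.vars → q = 1 := by
    intro hg0
    rw [hq, Fintype.sum_option, Fintype.sum_sigma]
    simp only [hμ0]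
    rw [hal3 hg0, zero_add, Finset.sum_eq_single 0]
    · rw [Finset.sum_eq_single (c 0).succ]
      · rw [hal1, Finsupp.single_eq_same]
      · intro i _ hi
        exact hal2 0 i hi 0 le_rfl
      · intro h
        exact absurd (Finset.mem_univ _) h
    · intro j _ hj
      refine Finset.sum_eq_zero fun i _ => ?_
      by_cases hi : i = (c j).succ
      · rw [hi, hal1, Finsupp.single_eq_of_ne hj.symm]
      · exact hal2 j i hi 0 (Fin.zero_le _)
    · intro h
      exact absurd (Finset.mem_univ _) h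
  refine ⟨q, hq0, hq1, fun ε hε => ?_⟩
  rw [← hdy]
  choose δ hδ hclose using fun k : ∀ j, Fin (A.r j) =>
    pairing_close (Matrix.of fun l j => mrow q N (μ (some ⟨l, (k l).succ⟩)) j -
      mrow q N (μ (some ⟨l, 0⟩)) j) hε
  obtain ⟨k0, -, hk0⟩ := Finset.exists_min_image Finset.univ δ ⟨c, Finset.mem_univ _⟩
  set δ0 : ℝ := δ k0 / 3 with hδ0
  have hδ0pos : 0 < δ0 := by
    have := hδ k0
    rw [hδ0]
    linarith
  have hδle : ∀ k, 2 * δ0 < δ k := by
    intro k
    have h1 := hk0 k (Finset.mem_univ k)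
    have h2 := hδ k0
    rw [hδ0]
    linarith
  obtain ⟨η0, hη0, hX⟩ := exists_points (q := q) (N := N)
    (H := fun e u => MvPolynomial.eval (mch m (wcc u)) (bind₁ x (map σ (fct A e))))
    (h := fun e u => hh m (bind₁ x (map σ (fct A e))) (al e) (wcc u))
    (μ := μ)
    (fun e u => by
      rw [eval_mch hm (hal e) (hD e), prod_wcc])
    (fun e => (contDiff_hh m _ _).comp contDiff_wcc)
    (fun e => by
      rw [wcc_zero]
      exact hh_zero hm (hal e) (hD e))
    rfl hq0 (fun k => rfl) hδ0pos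
  have hinvpos : 0 < 1 / η0 := by positivity
  refine ⟨1 / η0 + 2, by linarith, fun lam hlam => ?_⟩
  have hln : 0 < ‖σ lam‖ := by linarith
  have hl0 : σ lam ≠ 0 := norm_pos_iff.1 hln
  have hη : ‖(σ lam)⁻¹‖ < η0 := by
    rw [norm_inv, inv_lt_comm₀ hln hη0, ← one_div]
    linarith
  obtain ⟨hlog, U, hUc, hUp, hUe, hUg, hUest⟩ := hX _ (inv_ne_zero hl0) hη
  have hlogeq : Real.log ‖(σ lam)⁻¹‖ = -Real.log ‖σ lam‖ := by rw [norm_inv, Real.log_inv]
  rw [hlogeq] at hlog hUest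
  set s : ℝ := -Real.log ‖σ lam‖ with hs
  have hs0 : s ≠ 0 := hlog.ne
  set X : (Fin n → ℝ) → (Fin (n + 1) → ℂ) := fun θ j =>
    MvPolynomial.eval (mch m (wcc (U θ))) (x j) with hXdef
  have hval : ∀ (p : MvPolynomial (Fin (n + 1)) K) θ, eval₂ σ (X θ) p =
      MvPolynomial.eval (mch m (wcc (U θ))) (bind₁ x (map σ p)) := by
    intro p θ
    unfold MvPolynomial.eval
    rw [MvPolynomial.eval₂Hom_bind₁]
    show _ = MvPolynomial.eval₂ (RingHom.id ℂ) _ (map σ p)
    rw [MvPolynomial.eval₂_map, RingHom.id_comp]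
    rfl
  have hmch : ContDiff ℂ 2 fun u : (Fin n → ℂ) × ℂ => mch m (wcc u) := by
    refine contDiff_pi.2 fun j => ?_
    unfold mch
    exact contDiff_prod fun l _ => (contDiff_pi.1 contDiff_wcc l).pow _
  have hXc : ContDiff ℝ 2 X := by
    refine contDiff_pi.2 fun j => ?_
    have h1 : ∀ p : MvPolynomial (Fin (n + 1)) ℂ, ContDiff ℂ 2
        fun u : (Fin n → ℂ) × ℂ => MvPolynomial.eval (mch m (wcc u)) p := by
      intro p
      induction p using MvPolynomial.induction_on with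
      | C c => simpa using contDiff_const
      | add p q hp hq => simpa using hp.add hq
      | mul_X p k hp => simpa using hp.mul (contDiff_pi.1 hmch k)
    exact ((h1 (x j)).restrict_scalars ℝ).comp hUc
  have hXp : ∀ θ i, X (θ + Pi.single i 1) = X θ := fun θ i => by
    simp only [hXdef, hUp]
  have hPt : ∀ θ, Pt A σ lam (X θ) := fun θ => by
    have h1 := hUe θ
    rw [Fintype.prod_option, Fintype.prod_sigma] at h1
    simp only [← hval] at h1
    unfold Pt
    have h2 : eval₂ σ (X θ) A.g * ∏ j, ∏ i, eval₂ σ (X θ) (A.fac j i) = (σ lam)⁻¹ := h1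
    rw [h2]
    exact mul_inv_cancel₀ hl0
  have hgoodL : ∀ j i, Good fun θ => eval₂ σ (X θ) (A.fac j i) := fun j i => by
    have h1 := hUg (some ⟨j, i⟩)
    simp only [← hval] at h1
    exact h1
  have hest : ∀ j i θ, |Real.log ‖eval₂ σ (X θ) (A.fac j i)‖ / s -
      mrow q N (μ (some ⟨j, i⟩)) 0| ≤ δ0 ∧
      ∀ l, ‖lw (fun θ => eval₂ σ (X θ) (A.fac j i)) l θ - 2 * Real.pi * Complex.I *
        mrow q N (μ (some ⟨j, i⟩)) l.succ‖ ≤ δ0 := fun j i θ => by
    have h1 := hUest (some ⟨j, i⟩) θ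
    simp only [← hval] at h1
    exact h1
  refine ⟨mkT X hXc hXp hPt, fun θ y => ?_, fun k => ?_⟩
  · show evC (hPt θ) (A.mkC lam (C y)) = σ y
    rw [evC_mk, MvPolynomial.eval₂_C]
  have hfin : (if k = c then 1 else 0) * ((2 * Real.pi) ^ n * (Matrix.of (yrow q N)).det) =
      (2 * Real.pi) ^ n * (Matrix.of fun l j => mrow q N (μ (some ⟨l, (k l).succ⟩)) j -
        mrow q N (μ (some ⟨l, 0⟩)) j).det := by
    rw [show (Matrix.of fun l j => mrow q N (μ (some ⟨l, (k l).succ⟩)) j -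
        mrow q N (μ (some ⟨l, 0⟩)) j).det = (if k = c then 1 else 0) *
        (Matrix.of (yrow q N)).det from det_orders q N m al c hal1 hal2 k]
    ring
  rw [Torus.reg_symb, hfin]
  set Γ := mkT X hXc hXp hPt with hΓ
  have hau : ∀ j i, Γ.fn (A.unit lam j i : A.CRing lam) = fun θ => eval₂ σ (X θ) (A.fac j i) :=
    fun j i => mkT_unit X hXc hXp hPt j i
  have hgoodE : ∀ l, Good (Γ.fn (A.ent lam k l : A.CRing lam)) := fun l => Γ.good _
  have hmul : ∀ l, (fun θ => Γ.fn (A.ent lam k l : A.CRing lam) θ *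
      eval₂ σ (X θ) (A.fac l 0)) = fun θ => eval₂ σ (X θ) (A.fac l (k l).succ) := by
    intro l
    funext θ
    have h1 := congrFun (hau l 0) θ
    have h2 := congrFun (hau l (k l).succ) θ
    rw [← h1, ← h2]
    unfold Torus.fn
    rw [← map_mul]
    congr 1
    unfold Tower.ent
    rw [← Units.val_mul, div_mul_cancel]
  refine hclose k _ _ hs0 hgoodE (fun l θ => ?_) (fun l j θ => ?_)
  · change |Real.log ‖Γ.fn (A.ent lam k l : A.CRing lam) θ‖ / s -
      (mrow q N (μ (some ⟨l, (k l).succ⟩)) 0 - mrow q N (μ (some ⟨l, 0⟩)) 0)| < δ k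
    have h1 := (hest l (k l).succ θ).1
    have h2 := (hest l 0 θ).1
    have h3 : Real.log ‖Γ.fn (A.ent lam k l : A.CRing lam) θ * eval₂ σ (X θ) (A.fac l 0)‖ =
        Real.log ‖eval₂ σ (X θ) (A.fac l (k l).succ)‖ :=
      congrArg (fun z : ℂ => Real.log ‖z‖) (congrFun (hmul l) θ)
    rw [norm_mul, Real.log_mul (norm_ne_zero_iff.2 ((hgoodE l).ne_zero θ))
      (norm_ne_zero_iff.2 ((hgoodL _ _).ne_zero θ))] at h3
    have h4 : Real.log ‖Γ.fn (A.ent lam k l : A.CRing lam) θ‖ =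
        Real.log ‖eval₂ σ (X θ) (A.fac l (k l).succ)‖ -
        Real.log ‖eval₂ σ (X θ) (A.fac l 0)‖ := by
      linarith
    rw [h4, sub_div]
    refine lt_of_le_of_lt ?_ (hδle k)
    have h5 := abs_le.1 h1
    have h6 := abs_le.1 h2
    rw [abs_le]
    constructor <;> linarith [h5.1, h5.2, h6.1, h6.2]
  · change ‖lw (Γ.fn (A.ent lam k l : A.CRing lam)) j θ - 2 * Real.pi * Complex.I *
        ((mrow q N (μ (some ⟨l, (k l).succ⟩)) j.succ - mrow q N (μ (some ⟨l, 0⟩)) j.succ : ℝ) :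
          ℂ)‖ < δ k
    have h1 := (hest l (k l).succ θ).2 j
    have h2 := (hest l 0 θ).2 j
    have h3 := lw_mul (hgoodE l) (hgoodL l 0) j θ
    rw [hmul l] at h3
    have h4 : lw (Γ.fn (A.ent lam k l : A.CRing lam)) j θ =
        lw (fun θ => eval₂ σ (X θ) (A.fac l (k l).succ)) j θ -
        lw (fun θ => eval₂ σ (X θ) (A.fac l 0)) j θ := by
      rw [eq_sub_iff_add_eq]
      exact h3.symm
    refine lt_of_le_of_lt ?_ (hδle k)
    rw [h4]
    have h5 : lw (fun θ => eval₂ σ (X θ) (A.fac l (k l).succ)) j θ -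
        lw (fun θ => eval₂ σ (X θ) (A.fac l 0)) j θ - 2 * Real.pi * Complex.I *
        ((mrow q N (μ (some ⟨l, (k l).succ⟩)) j.succ - mrow q N (μ (some ⟨l, 0⟩)) j.succ : ℝ) :
          ℂ) =
        (lw (fun θ => eval₂ σ (X θ) (A.fac l (k l).succ)) j θ - 2 * Real.pi * Complex.I *
          mrow q N (μ (some ⟨l, (k l).succ⟩)) j.succ) -
        (lw (fun θ => eval₂ σ (X θ) (A.fac l 0)) j θ - 2 * Real.pi * Complex.I *
          mrow q N (μ (some ⟨l, 0⟩)) j.succ) := by
      push_cast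
      ring
    rw [h5]
    refine (norm_sub_le _ _).trans ?_
    linarith

/-- All tori together. -/
theorem exists_tori_limit (σ : K →+* ℂ) (hG : A.Graphs) :
    ∃ q : (∀ j, Fin (A.r j)) → ℕ, (∀ c, 0 < q c) ∧
      ((0 : Fin (n + 1)) ∉ A.g.vars → ∀ c, q c = 1) ∧ ∀ ε : ℝ, 0 < ε →
      ∃ Λ : ℝ, 1 < Λ ∧ ∀ lam : K, Λ ≤ ‖σ lam‖ →
        ∃ Γ : (∀ j, Fin (A.r j)) → Torus (A.CRing lam) n,
        (∀ t θ x, (Γ t).e θ (A.mkC lam (C x)) = σ x) ∧
        (∀ t k, |(Γ t).reg (symb (A.ent lam k)) / (-((2 * Real.pi) ^ n *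
          ((q t : ℝ)⁻¹ * (q t : ℝ) ^ n) * Real.log ‖σ lam‖)) - (if t = k then 1 else 0)| ≤ ε) ∧
        |(Matrix.of fun t k : (∀ j, Fin (A.r j)) => (Γ t).reg (symb (A.ent lam k))).det /
          (∏ t : (∀ j, Fin (A.r j)), (-((2 * Real.pi) ^ n *
          ((q t : ℝ)⁻¹ * (q t : ℝ) ^ n) * Real.log ‖σ lam‖))) - 1| ≤ ε := by
  classical
  choose q hq0 hq1 hD using fun c => exists_torus_explicit (A := A) σ hG c
  refine ⟨q, hq0, fun h c => hq1 c h, fun ε hε => ?_⟩
  obtain ⟨δ, hδ, hδε, hnear⟩ := Pool.Agent.X321.DC.exists_near_one (∀ j, Fin (A.r j)) hε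
  have hpos : ∀ c, 0 < (2 * Real.pi) ^ n * ((q c : ℝ)⁻¹ * (q c : ℝ) ^ n) := fun c => by
    have h1 : (0 : ℝ) < q c := by exact_mod_cast hq0 c
    have h2 := Real.pi_pos
    positivity
  choose Λ hΛ1 hΛ using fun c => hD c (δ * ((2 * Real.pi) ^ n * ((q c : ℝ)⁻¹ * (q c : ℝ) ^ n)))
    (mul_pos hδ (hpos c))
  refine ⟨2 + ∑ c, |Λ c|, by
    have : 0 ≤ ∑ c, |Λ c| := Finset.sum_nonneg fun _ _ => abs_nonneg _
    linarith, fun lam hlam => ?_⟩
  have hle : ∀ c, Λ c ≤ ‖σ lam‖ := fun c => by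
    have h1 := Finset.single_le_sum (f := fun c => |Λ c|) (fun _ _ => abs_nonneg _)
      (Finset.mem_univ c)
    have h2 := le_abs_self (Λ c)
    linarith
  have hlog : 0 < Real.log ‖σ lam‖ := by
    refine Real.log_pos ?_
    have : 0 ≤ ∑ c, |Λ c| := Finset.sum_nonneg fun _ _ => abs_nonneg _
    linarith
  choose Γ hΓσ hΓ using fun c => hΛ c lam (hle c)
  have hent : ∀ t k, |(Γ t).reg (symb (A.ent lam k)) / (-((2 * Real.pi) ^ n *
      ((q t : ℝ)⁻¹ * (q t : ℝ) ^ n) * Real.log ‖σ lam‖)) - (if t = k then 1 else 0)| ≤ δ := by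
    intro t k
    have h2 := hΓ t k
    set D : ℝ := (2 * Real.pi) ^ n * ((q t : ℝ)⁻¹ * (q t : ℝ) ^ n) with hDdef
    have hD0 : 0 < D := hpos t
    have e : (Γ t).reg (symb (A.ent lam k)) / (-(D * Real.log ‖σ lam‖)) -
        (if t = k then 1 else 0) = ((Γ t).reg (symb (A.ent lam k)) / (-Real.log ‖σ lam‖) -
        (if k = t then 1 else 0) * D) / D := by
      have e1 : (if t = k then (1 : ℝ) else 0) = if k = t then 1 else 0 := by
        by_cases h : t = k
        · rw [if_pos h, if_pos h.symm]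
        · rw [if_neg h, if_neg (Ne.symm h)]
      rw [e1]
      field_simp
    rw [e, abs_div, abs_of_pos hD0, div_le_iff₀ hD0]
    exact h2
  refine ⟨Γ, hΓσ, fun t k => (hent t k).trans hδε, ?_⟩
  have hne : ∀ t, -((2 * Real.pi) ^ n * ((q t : ℝ)⁻¹ * (q t : ℝ) ^ n) * Real.log ‖σ lam‖) ≠ 0 :=
    fun t => neg_ne_zero.2 (mul_pos (hpos t) hlog).ne'
  have h3 : (Matrix.of fun t k : (∀ j, Fin (A.r j)) => (Γ t).reg (symb (A.ent lam k))).det =
      (∏ t : (∀ j, Fin (A.r j)), (-((2 * Real.pi) ^ n *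
          ((q t : ℝ)⁻¹ * (q t : ℝ) ^ n) * Real.log ‖σ lam‖))) *
      (Matrix.of fun t k : (∀ j, Fin (A.r j)) => (Γ t).reg (symb (A.ent lam k)) /
        (-((2 * Real.pi) ^ n * ((q t : ℝ)⁻¹ * (q t : ℝ) ^ n) * Real.log ‖σ lam‖))).det := by
    rw [← Matrix.det_mul_column]
    congr 1
    ext t k
    simp only [Matrix.of_apply]
    rw [mul_div_cancel₀ _ (hne t)]
  rw [h3, mul_div_cancel_left₀ _ (Finset.prod_ne_zero_iff.2 fun t _ => hne t)]
  exact hnear _ hent

end main

end Pool.Agent.X321.TW
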